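import Mathlib
import Pool.Agent.Helper10.Weil

/-!
# Pieces of Tate type, and relations between the eigenvalues of a symmetry
-/

universe u v w

open CategoryTheory Polynomial

namespace Pool.Agent.Helper11.Fr

open Pool.Agent.Helper10

/-- `power X n` is the product `X ^ (n + 1)` of `n + 1` copies of `X`. -/
noncomputable def power {k : Type u} [Field k] (X : SmProjVar k) : ℕ → SmProjVar k
  | 0 => X
  | n + 1 => (power X n).prod X

variable {k : Type u} [Field k] {K : Type v} [Field K]

section Statement

variable (W : CohomologyData.{u, v, w} k K)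

/-- The classes of even degree in `H(V)` (for `p` even), or the classes of odd degree (for `p`
odd). -/
def parityPart (V : SmProjVar k) (p : ℕ) : Submodule K (W.H V) := ⨆ i ∈ {i | Even (i + p)}, W.gr V i

/-- A symmetry with multiplier `q` of the cohomology theory `H`: a family of automorphisms `g_X` of
the `K`-algebras `H(X)`, compatible with pull-backs, such that `g_X` multiplies the classes of
algebraic cycles of codimension `j` by `q ^ j`, and the trace by `q ^ dim X`. (Main example: `k` is
finite with `q` elements, and `g_X` is the Frobenius endomorphism of `X` over `k`.) -/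
structure IsSymmetry (g : ∀ X : SmProjVar k, W.H X →ₗ[K] W.H X) (q : K) : Prop where
  bijective : ∀ X, Function.Bijective (g X)
  map_one : ∀ X, g X 1 = 1
  map_mul : ∀ (X : SmProjVar k) (x y : W.H X), g X (x * y) = g X x * g X y
  pull : ∀ {X Y : SmProjVar k} (f : X.toOver ⟶ Y.toOver) (y : W.H Y),
    g X (W.pull f y) = W.pull f (g Y y)
  ne_zero : q ≠ 0
  cycle : ∀ (X : SmProjVar k) (j : ℕ) (c : X.Z j), g X (W.cy X j c) = q ^ j • W.cy X j c
  trace : ∀ (X : SmProjVar k) (x : W.H X), W.tr X (g X x) = q ^ X.dim * W.tr X x

/-- The subspace `E` of `H(V)` is a piece of Tate type, for the operator `t` on `H(V)` (given by a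
symmetry with multiplier `q`):
* `E` consists of classes of even degree, or of classes of odd degree;
* some map `u : H(V) → E` induced by an algebraic correspondence from `V` to `V` is the orthogonal
  projection to `E`, for the Poincaré duality pairing;
* `E` is stable under `t`, and `t` is semisimple on `E`: `P(t) = 0` on `E` for some squarefree
  polynomial `P` over `K`;
* (Tate conjecture) every `f : E → E` with `f t = q ^ n t f` on `E`, for some integer `n`, is
  induced by an algebraic correspondence from `V` to `V`. -/
structure IsTatePiece (q : K) {V : SmProjVar k} (t : W.H V →ₗ[K] W.H V)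
    (E : Submodule K (W.H V)) : Prop where
  parity : ∃ p, E ≤ parityPart W V p
  projector : ∃ u : W.H V → W.H V, W.IsAlgebraicMap V V u ∧ ∀ y, u y ∈ E ∧
    ∀ x ∈ E, W.pairing V x (u y) = W.pairing V x y
  stable : ∀ y ∈ E, t y ∈ E
  semisimple : ∃ P : K[X], Squarefree P ∧ ∀ y ∈ E, aeval t P y = 0
  algebraic : ∀ (f : W.H V →ₗ[K] W.H V) (n : ℤ), (∀ y ∈ E, f y ∈ E) →
    (∀ y ∈ E, f (t y) = q ^ n • t (f y)) →
      ∃ u : W.H V → W.H V, W.IsAlgebraicMap V V u ∧ ∀ y ∈ E, u y = f y

variable {W}

/-- The eigenvalues of `t` on `E`, in the algebraic closure of `K`: the common roots of the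
polynomials `P` over `K` with `P(t) = 0` on `E`. -/
def eigenvalues {V : SmProjVar k} (t : W.H V →ₗ[K] W.H V) (E : Submodule K (W.H V)) :
    Set (AlgebraicClosure K) :=
  {α | ∀ P : K[X], (∀ y ∈ E, aeval t P y = 0) → aeval α P = 0}

open Classical in
/-- The number of roots `α` of `f` in the algebraic closure of `K`, with multiplicities, such that
`α = β q ^ n` for some integer `n`. -/
noncomputable def rootCount (q : K) (f : K[X]) (β : AlgebraicClosure K) : ℕ :=
  ((f.aroots (AlgebraicClosure K)).filter fun α =>
    ∃ n : ℤ, α = β * algebraMap K (AlgebraicClosure K) q ^ n).card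

/-- The relations, over `K` and modulo powers of `q`, between the eigenvalues of the operators
`t_1, …, t_r` on `E_1, …, E_r` are symmetric: if `f_1, …, f_r` are monic polynomials over `K` such
that all roots of `f_c` are eigenvalues of `t_c` on `E_c`, and `f_1(0) ⋯ f_r(0) = ± q ^ n` for some
integer `n`, then, for all `c` and `β`, the polynomial `f_c` has as many roots in `β q ^ ℤ` as in
`β⁻¹ q ^ ℤ`. -/
def SymmetricRelations (q : K) {r : ℕ} {V : Fin r → SmProjVar k}
    (t : ∀ c, W.H (V c) →ₗ[K] W.H (V c)) (E : ∀ c, Submodule K (W.H (V c))) : Prop :=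
  ∀ f : Fin r → K[X], (∀ c, (f c).Monic) →
    (∀ c, ∀ α ∈ (f c).aroots (AlgebraicClosure K), α ∈ eigenvalues (t c) (E c)) →
    (∃ n : ℤ, ∏ c, (f c).eval 0 = q ^ n ∨ ∏ c, (f c).eval 0 = -q ^ n) →
      ∀ c β, rootCount q (f c) β = rootCount q (f c) β⁻¹

variable (W)

/-- The products (of any number of factors, possibly none) in `H(Z)` of pull-backs of elements of
the subspaces `E_c` of `H(V_c)`, under morphisms `Z → V_c`. -/
def words {r : ℕ} {V : Fin r → SmProjVar k} (E : ∀ c, Submodule K (W.H (V c)))
    (Z : SmProjVar k) : Submonoid (W.H Z) :=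
  Submonoid.closure {y | ∃ (c : Fin r) (f : Z.toOver ⟶ (V c).toOver), ∃ e ∈ E c, y = W.pull f e}

/-- The cohomology of `Y` is spanned by the images, under maps `H(Z) → H(Y)` induced by algebraic
correspondences, of products of pull-backs of elements of the subspaces `E_c`. (Example: if
`E_c` contains the classes of even degree in `H(V_c)`, and some `E_d`, with `V_d = V_c`, contains
those of odd degree, for all `c`, then `Y` can be any product of copies of the `V_c`.) -/
def IsSpannedByWords {r : ℕ} {V : Fin r → SmProjVar k} (E : ∀ c, Submodule K (W.H (V c)))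
    (Y : SmProjVar k) : Prop :=
  Submodule.span K {y | ∃ (Z : SmProjVar k) (u : W.H Z → W.H Y) (w : W.H Z),
    w ∈ words W E Z ∧ W.IsAlgebraicMap Z Y u ∧ y = u w} = ⊤

end Statement

end Pool.Agent.Helper11.Fr
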