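import Mathlib
import Pool.Agent.Helper11.Fr.Types
import Pool.Agent.Helper11.ObsThm
import Pool.Agent.Helper10.RelThm
import Pool.Agent.Helper11.Rl.Main

/-!
# Extension of scalars for pieces of Tate type
-/

universe u v w t

open CategoryTheory TensorProduct Polynomial

namespace Pool.Agent.Helper11.Fr

open Pool.Agent.Helper10 hiding parityPart IsAlgAut
open SmProjVar SPre Iso
open Obs (one bc bc_induction top_induction one_mem_bc op_one one_mem_alg)

variable {k : Type u} [Field k] {K : Type v} [Field K] [CharZero K]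
  (W : WeilCohomology.{u, v, w} k K) (Ω : Type t) [Field Ω] [Algebra K Ω]

/-- the symmetries, over `Ω` -/
noncomputable def ext (g : ∀ X : SmProjVar k, W.H X →ₗ[K] W.H X) (X : SmProjVar k) :
    Ω ⊗[K] W.H X → Ω ⊗[K] W.H X := (g X).baseChange Ω

lemma ext_tmul (g : ∀ X : SmProjVar k, W.H X →ₗ[K] W.H X) (X : SmProjVar k) (a : Ω)
    (y : W.H X) : ext W Ω g X (a ⊗ₜ[K] y) = a ⊗ₜ[K] g X y := LinearMap.baseChange_tmul _ _ _

lemma ext_add (g : ∀ X : SmProjVar k, W.H X →ₗ[K] W.H X) (X : SmProjVar k)
    (x y : Ω ⊗[K] W.H X) : ext W Ω g X (x + y) = ext W Ω g X x + ext W Ω g X y := map_add _ _ _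

lemma isSymmetry_ext {g : ∀ X : SmProjVar k, W.H X →ₗ[K] W.H X} {q : K}
    (hg : IsSymmetry W.toCohomologyData g q) :
    Obs.IsSymmetry W.toCohomologyData Ω (ext W Ω g) (algebraMap K Ω q) where
  aut X :=
    { bijective := by
        let e : W.H X ≃ₗ[K] W.H X := LinearEquiv.ofBijective (g X) (hg.bijective X)
        have h1 : ext W Ω g X = e.baseChange K Ω _ _ := by
          funext z
          induction z using TensorProduct.induction_on with
          | zero => exact (map_zero ((g X).baseChange Ω)).trans (map_zero _).symm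
          | tmul a y => rfl
          | add x y hx hy => rw [ext_add, map_add, hx, hy]
        rw [h1]
        exact (e.baseChange K Ω _ _).bijective
      map_add := ext_add W Ω g X
      map_smul := fun a x => map_smul ((g X).baseChange Ω) a x
      map_one := by
        rw [Algebra.TensorProduct.one_def, ext_tmul, hg.map_one]
      map_mul := by
        intro x y
        induction x using TensorProduct.induction_on with
        | zero =>
          have h0 : ext W Ω g X 0 = 0 := map_zero ((g X).baseChange Ω)
          rw [zero_mul, h0, zero_mul]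
        | add a b ha hb => rw [add_mul, ext_add, ha, hb, ext_add, add_mul]
        | tmul a x =>
          induction y using TensorProduct.induction_on with
          | zero =>
            have h0 : ext W Ω g X 0 = 0 := map_zero ((g X).baseChange Ω)
            rw [mul_zero, h0, mul_zero]
          | add c d hc hd => rw [mul_add, ext_add, hc, hd, ext_add, mul_add]
          | tmul b y =>
            rw [Algebra.TensorProduct.tmul_mul_tmul, ext_tmul, ext_tmul, ext_tmul,
              Algebra.TensorProduct.tmul_mul_tmul, hg.map_mul] }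
  pull {X Y} f φ hφ z := by
    induction z using TensorProduct.induction_on with
    | zero =>
      have h0 : φ 0 = 0 := by
        have := hφ.map_add 0 0
        rw [add_zero] at this
        simpa using this
      have h1 : ∀ X, ext W Ω g X 0 = 0 := fun X => map_zero ((g X).baseChange Ω)
      rw [h1, h0, h1]
    | tmul a y => rw [ext_tmul, hφ.map_tmul, hφ.map_tmul, ext_tmul, hg.pull]
    | add x y hx hy => rw [hφ.map_add, ext_add, hx, hy, ext_add, hφ.map_add]
  ne_zero := (map_ne_zero_iff _ (algebraMap K Ω).injective).mpr hg.ne_zero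
  cycle X j c := by
    rw [ext_tmul, hg.cycle, TensorProduct.tmul_smul, ← algebraMap_smul Ω (q ^ j), map_pow,
      TensorProduct.smul_tmul', smul_eq_mul, mul_one]
  trace X τ hτ z := by
    induction z using TensorProduct.induction_on with
    | zero =>
      have h0 : τ 0 = 0 := by
        have := hτ.map_add 0 0
        rw [add_zero] at this
        simpa using this
      have h1 : ext W Ω g X 0 = 0 := map_zero ((g X).baseChange Ω)
      rw [h1, h0, mul_zero]
    | tmul a y =>
      rw [ext_tmul, hτ.map_tmul, hτ.map_tmul, hg.trace, map_mul, map_pow]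
      ring
    | add x y hx hy => rw [ext_add, hτ.map_add, hx, hy, hτ.map_add, mul_add]

section Coord

variable {A : Type w} [AddCommGroup A] [Module K A]

open Classical in
/-- the coordinates of elements of `Ω ⊗ A` -/
noncomputable def coord {ι : Type*} (b : Module.Basis ι K Ω) (i : ι) : Ω ⊗[K] A →ₗ[K] A :=
  (Finsupp.lapply i) ∘ₗ (TensorProduct.equivFinsuppOfBasisLeft (N := A) b).toLinearMap

omit [CharZero K] in
lemma coord_tmul {ι : Type*} (b : Module.Basis ι K Ω) (i : ι) (a : Ω) (x : A) :
    coord Ω b i (a ⊗ₜ[K] x) = b.repr a i • x := by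
  classical
  unfold coord
  rw [LinearMap.comp_apply, LinearEquiv.coe_coe, Finsupp.lapply_apply,
    TensorProduct.equivFinsuppOfBasisLeft_apply_tmul_apply]

omit [CharZero K] in
lemma coord_mem {ι : Type*} (b : Module.Basis ι K Ω) (i : ι) {S : Submodule K A}
    {z : Ω ⊗[K] A} (hz : z ∈ S.baseChange Ω) : coord Ω b i z ∈ S := by
  obtain ⟨z, rfl⟩ := hz
  induction z using TensorProduct.induction_on with
  | zero => rw [map_zero, map_zero]; exact S.zero_mem
  | tmul a y =>
    rw [LinearMap.baseChange_tmul, coord_tmul]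
    exact S.smul_mem _ y.2
  | add x y hx hy => rw [map_add, map_add]; exact S.add_mem hx hy

omit [CharZero K] in
lemma coord_baseChange {ι : Type*} (b : Module.Basis ι K Ω) (i : ι) (g : A →ₗ[K] A)
    (z : Ω ⊗[K] A) : coord Ω b i (g.baseChange Ω z) = g (coord Ω b i z) := by
  induction z using TensorProduct.induction_on with
  | zero => simp only [map_zero]
  | tmul a y => rw [LinearMap.baseChange_tmul, coord_tmul, coord_tmul, map_smul]
  | add x y hx hy => simp only [map_add, hx, hy]

omit [CharZero K] in
lemma exists_coord {ι : Type*} (b : Module.Basis ι K Ω) (z : Ω ⊗[K] A) :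
    ∃ s : Finset ι, ∀ i ∉ s, coord Ω b i z = 0 := by
  classical
  exact ⟨(TensorProduct.equivFinsuppOfBasisLeft (N := A) b z).support, fun i hi =>
    Finsupp.notMem_support_iff.mp hi⟩

omit [CharZero K] in
lemma eq_sum_coord {ι : Type*} (b : Module.Basis ι K Ω) (s : Finset ι) {z : Ω ⊗[K] A}
    (h : ∀ i ∉ s, coord Ω b i z = 0) : z = ∑ i ∈ s, b i ⊗ₜ[K] coord Ω b i z := by
  classical
  set e := TensorProduct.equivFinsuppOfBasisLeft (N := A) b with he
  have h1 : ∀ i, coord Ω b i z = e z i := fun i => rfl
  have h2 : z = (e z).sum fun i n => b i ⊗ₜ[K] n := by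
    rw [← TensorProduct.equivFinsuppOfBasisLeft_symm_apply, LinearEquiv.symm_apply_apply]
  conv_lhs => rw [h2]
  rw [Finsupp.sum]
  simp only [h1]
  refine Finset.sum_subset (fun i hi => ?_) fun i _ hi => ?_
  · by_contra h3
    exact Finsupp.mem_support_iff.mp hi (h i h3)
  · rw [Finsupp.notMem_support_iff.mp hi, TensorProduct.tmul_zero]

end Coord

variable {Ω}

lemma one_smul' {X : SmProjVar k} (a : K) (x : W.H X) :
    one W Ω (a • x) = algebraMap K Ω a • one W Ω x := by
  have h1 : (1 : Ω) ⊗ₜ[K] (a • x) = algebraMap K Ω a • ((1 : Ω) ⊗ₜ[K] x) := by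
    rw [TensorProduct.tmul_smul, algebraMap_smul]
  exact h1

lemma one_zero {X : SmProjVar k} : one W Ω (0 : W.H X) = 0 := TensorProduct.tmul_zero _ _

/-- polynomials in an operator, over `Ω` -/
lemma aeval_one {V : SmProjVar k} {t : W.H V →ₗ[K] W.H V}
    {F : (W.toSPre Ω).H V →ₗ[Ω] (W.toSPre Ω).H V}
    (hF : ∀ y, F (one W Ω y) = one W Ω (t y)) (P : K[X]) (y : W.H V) :
    aeval (F : Module.End Ω _) (P.map (algebraMap K Ω)) (one W Ω y) =
      one W Ω (aeval (t : Module.End K _) P y) := by
  have hpow : ∀ (n : ℕ) (y : W.H V), ((F : Module.End Ω _) ^ n) (one W Ω y) =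
      one W Ω (((t : Module.End K _) ^ n) y) := by
    intro n
    induction n with
    | zero => intro y; rfl
    | succ n ih =>
      intro y
      rw [pow_succ, Module.End.mul_apply, hF, ih, pow_succ, Module.End.mul_apply]
  induction P using Polynomial.induction_on' with
  | add p q hp hq =>
    rw [Polynomial.map_add, map_add, LinearMap.add_apply, hp, hq, map_add, LinearMap.add_apply,
      Obs.one_add]
  | monomial n a =>
    rw [Polynomial.map_monomial, aeval_monomial, aeval_monomial, Module.End.mul_apply,
      Module.End.mul_apply, hpow, Module.algebraMap_end_apply, Module.algebraMap_end_apply,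
      one_smul']

section Piece

variable {W}

variable {γ : (W.toSPre Ω).Sym} {q : K} {V : SmProjVar k} {t : W.H V →ₗ[K] W.H V}
  {E : Submodule K (W.H V)}

/-- twisted homomorphisms over `Ω` are combinations of twisted homomorphisms over `K` -/
lemma algebraic_ext (hγ : ∀ z, γ.g V z = t.baseChange Ω z)
    (hE : IsTatePiece W.toCohomologyData q t E)
    (F : (W.toSPre Ω).H V →ₗ[Ω] (W.toSPre Ω).H V) (n : ℤ)
    (h1 : ∀ y ∈ bc W Ω E, F y ∈ bc W Ω E)
    (h2 : ∀ y ∈ bc W Ω E, F (γ.g V y) = (algebraMap K Ω q) ^ n • γ.g V (F y)) :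
    ∃ c ∈ (W.toSPre Ω).alg (V.prod V), ∀ y ∈ bc W Ω E, op c y = F y := by
  classical
  have hfin : Module.Finite K (W.H V) := (W.graded V).finite
  let b := Module.Basis.ofVectorSpace K Ω
  let co := fun i => coord (A := W.H V) Ω b i
  let oneL : W.H V →ₗ[K] (Ω ⊗[K] W.H V) := TensorProduct.mk K Ω (W.H V) 1
  let FK : (Ω ⊗[K] W.H V) →ₗ[K] (Ω ⊗[K] W.H V) :=
    { toFun := F
      map_add' := fun x y => map_add F x y
      map_smul' := fun a x => by
        have h3 := map_smul F (algebraMap K Ω a) x
        rw [RingHom.id_apply]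
        have h4 : ∀ z : Ω ⊗[K] W.H V, a • z = algebraMap K Ω a • z := fun z =>
          (algebraMap_smul Ω a z).symm
        rw [h4, h4]
        exact h3 }
  have hFK : ∀ z, FK z = F z := fun z => rfl
  let f : _ → (W.H V →ₗ[K] W.H V) := fun i => co i ∘ₗ FK ∘ₗ oneL
  have hf : ∀ i y, f i y = co i (F (one W Ω y)) := fun i y => rfl
  have hfE : ∀ i, ∀ y ∈ E, f i y ∈ E := by
    intro i y hy
    rw [hf]
    exact coord_mem Ω b i (h1 _ (one_mem_bc W Ω hy))
  have hco : ∀ i (z : (W.toSPre Ω).H V), co i (γ.g V z) = t (co i z) := by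
    intro i z
    rw [hγ]
    exact coord_baseChange Ω b i t z
  have hco2 : ∀ i (a : K) (z : (W.toSPre Ω).H V), co i (algebraMap K Ω a • z) = a • co i z := by
    intro i a z
    have h3 : ∀ z : Ω ⊗[K] W.H V, co i (algebraMap K Ω a • z) = a • co i z := fun z => by
      rw [algebraMap_smul, map_smul]
    exact h3 z
  have hft : ∀ i, ∀ y ∈ E, f i (t y) = q ^ n • t (f i y) := by
    intro i y hy
    rw [hf, hf]
    have h3 : one W Ω (t y) = γ.g V (one W Ω y) := by
      rw [hγ]
      exact (LinearMap.baseChange_tmul _ _ _).symm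
    rw [h3, h2 _ (one_mem_bc W Ω hy), ← map_zpow₀, hco2, hco]
  choose u hu huf using fun i => hE.algebraic (f i) n (hfE i) (hft i)
  choose c hc hcu using hu
  -- finitely many coordinates
  obtain ⟨s, hs⟩ : ∃ s : Finset _, ∀ i ∉ s, ∀ y, f i y = 0 := by
    let v := Module.finBasis K (W.H V)
    choose s hs using fun j => exists_coord Ω b (F (one W Ω (v j)))
    refine ⟨Finset.univ.biUnion s, fun i hi y => ?_⟩
    have h3 : f i = 0 := by
      refine v.ext fun j => ?_
      rw [LinearMap.zero_apply]
      exact hs j i fun h => hi (Finset.mem_biUnion.mpr ⟨j, Finset.mem_univ _, h⟩)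
    rw [h3, LinearMap.zero_apply]
  have hsum : ∀ (g : _ → (W.toSPre Ω).H (V.prod V)), op (∑ i ∈ s, g i) = ∑ i ∈ s, op (g i) := by
    intro g
    clear hs
    induction s using Finset.induction_on with
    | empty => rw [Finset.sum_empty, Finset.sum_empty, op_zero]
    | insert a s ha ih => rw [Finset.sum_insert ha, Finset.sum_insert ha, Iso.op_add, ih]
  refine ⟨∑ i ∈ s, (b i : Ω) • one W Ω (c i), Submodule.sum_mem _ fun i _ =>
    Submodule.smul_mem _ _ (one_mem_alg W Ω (hc i)), fun y hy => ?_⟩
  refine bc_induction W Ω (S := E) (p := fun y => op (∑ i ∈ s, (b i : Ω) • one W Ω (c i)) y = F y)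
    (fun y hy => ?_) (by rw [map_zero, map_zero]) (fun x y hx hy => by rw [map_add, map_add, hx, hy])
    (fun a x hx => by rw [map_smul, map_smul, hx]) hy
  rw [hsum, LinearMap.sum_apply]
  have h3 : F (one W Ω y) = ∑ i ∈ s, (b i) ⊗ₜ[K] f i y :=
    eq_sum_coord Ω b s fun i hi => hs i hi y
  rw [h3]
  refine Finset.sum_congr rfl fun i _ => ?_
  rw [op_smul, LinearMap.smul_apply, op_one W Ω (hcu i), huf i y hy]
  have h4 : (b i : Ω) • ((1 : Ω) ⊗ₜ[K] f i y) = (b i) ⊗ₜ[K] f i y := by
    rw [TensorProduct.smul_tmul', smul_eq_mul, mul_one]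
  exact h4

/-- pieces of Tate type over `Ω` -/
theorem tateP_ext [IsAlgClosed Ω] (hγ : ∀ z, γ.g V z = t.baseChange Ω z)
    (hE : IsTatePiece W.toCohomologyData q t E) :
    Rl.TateP (W.toSPre Ω) γ (algebraMap K Ω q) V (bc W Ω E) where
  parity := by
    obtain ⟨p, hp⟩ := hE.parity
    by_cases h : Even p
    · exact .inl fun x hx => bc_induction W Ω (S := E) (p := fun x => x ∈ (W.toSPre Ω).ev V)
        (fun y hy => Obs.one_ev W Ω (Obs.parityPart_le_evK W h (hp hy))) (Submodule.zero_mem _)
        (fun _ _ => Submodule.add_mem _) (fun a _ => Submodule.smul_mem _ a) hx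
    · exact .inr fun x hx => bc_induction W Ω (S := E) (p := fun x => x ∈ (W.toSPre Ω).od V)
        (fun y hy => Obs.one_od W Ω (Obs.parityPart_le_odK W h (hp hy))) (Submodule.zero_mem _)
        (fun _ _ => Submodule.add_mem _) (fun a _ => Submodule.smul_mem _ a) hx
  projector := by
    obtain ⟨u, ⟨c, hc, hu⟩, huE⟩ := hE.projector
    refine ⟨one W Ω c, one_mem_alg W Ω hc, fun y => ⟨?_, fun x hx => ?_⟩⟩
    · refine top_induction W Ω (p := fun y => op (one W Ω c) y ∈ bc W Ω E) (fun y => ?_) ?_
        (fun a b ha hb => ?_) (fun a b hb => ?_) y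
      · rw [op_one W Ω hu]
        exact one_mem_bc W Ω (huE y).1
      · rw [map_zero]; exact Submodule.zero_mem _
      · rw [map_add]; exact Submodule.add_mem _ ha hb
      · rw [map_smul]; exact Submodule.smul_mem _ _ hb
    · refine bc_induction W Ω (S := E) (p := fun x => (W.toSPre Ω).tr V (x * op (one W Ω c) y) =
        (W.toSPre Ω).tr V (x * y)) (fun x hx => ?_) (by rw [zero_mul, zero_mul])
        (fun a b ha hb => by rw [add_mul, map_add, ha, hb, add_mul, map_add])
        (fun a b hb => by rw [smul_mul_assoc, map_smul, hb, smul_mul_assoc, map_smul]) hx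
      refine top_induction W Ω (p := fun y => (W.toSPre Ω).tr V (one W Ω x * op (one W Ω c) y) =
        (W.toSPre Ω).tr V (one W Ω x * y)) (fun y => ?_) (by rw [map_zero])
        (fun a b ha hb => by rw [map_add, mul_add, map_add, ha, hb, mul_add, map_add])
        (fun a b hb => by
          rw [map_smul, mul_smul_comm, map_smul, hb, mul_smul_comm, map_smul]) y
      rw [op_one W Ω hu, Obs.tr_one_mul, Obs.tr_one_mul, (huE y).2 x hx]
  stable y hy := by
    refine bc_induction W Ω (S := E) (p := fun y => γ.g V y ∈ bc W Ω E) (fun y hy => ?_)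
      (by rw [map_zero]; exact Submodule.zero_mem _)
      (fun a b ha hb => by rw [map_add]; exact Submodule.add_mem _ ha hb)
      (fun a b hb => by rw [map_smul]; exact Submodule.smul_mem _ _ hb) hy
    rw [hγ]
    exact one_mem_bc W Ω (hE.stable y hy)
  conj σ y hy := W.sΩ_baseChange Ω σ V E y hy
  diag := by
    have hfin : Module.Finite Ω ((W.toSPre Ω).H V) := (W.toSPre Ω).fin V
    obtain ⟨Q, hQ, hQE⟩ := hE.semisimple
    let G : Module.End Ω ((W.toSPre Ω).H V) := t.baseChange Ω
    have hG1 : ∀ y, G (one W Ω y) = one W Ω (t y) := fun y => LinearMap.baseChange_tmul _ _ _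
    have hGE : ∀ y ∈ bc W Ω E, G y ∈ bc W Ω E := by
      intro y hy
      refine bc_induction W Ω (S := E) (p := fun y => G y ∈ bc W Ω E) (fun y hy => ?_)
        (by rw [map_zero]; exact Submodule.zero_mem _)
        (fun a b ha hb => by rw [map_add]; exact Submodule.add_mem _ ha hb)
        (fun a b hb => by rw [map_smul]; exact Submodule.smul_mem _ _ hb) hy
      rw [hG1]
      exact one_mem_bc W Ω (hE.stable y hy)
    let F : Module.End Ω (bc W Ω E) := G.restrict hGE
    have hFc : ∀ y, ((F y : bc W Ω E) : (W.toSPre Ω).H V) = G y := fun y => rfl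
    have hss : F.IsSemisimple := by
      have hsq : Squarefree (Q.map (algebraMap K Ω)) :=
        ((PerfectField.separable_iff_squarefree.mpr hQ).map).squarefree
      refine Module.End.isSemisimple_of_squarefree_aeval_eq_zero hsq ?_
      have h1 : ∀ (R : Polynomial Ω) (y : bc W Ω E), ((aeval F R y : bc W Ω E) : (W.toSPre Ω).H V) =
          aeval G R (y : (W.toSPre Ω).H V) := by
        intro R y
        have hpow : ∀ (n : ℕ) (y : bc W Ω E), (((F ^ n) y : bc W Ω E) : (W.toSPre Ω).H V) =
            (G ^ n) (y : (W.toSPre Ω).H V) := by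
          intro n
          induction n with
          | zero => intro y; rfl
          | succ n ih =>
            intro y
            rw [pow_succ, Module.End.mul_apply, ih, hFc, pow_succ, Module.End.mul_apply]
        induction R using Polynomial.induction_on' with
        | add p q hp hq =>
          rw [map_add, LinearMap.add_apply, Submodule.coe_add, hp, hq, map_add,
            LinearMap.add_apply]
        | monomial n a =>
          rw [aeval_monomial, aeval_monomial, Module.End.mul_apply, Module.End.mul_apply,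
            Module.algebraMap_end_apply, Module.algebraMap_end_apply, Submodule.coe_smul, hpow]
      refine LinearMap.ext fun y => Subtype.ext ?_
      rw [h1, LinearMap.zero_apply, Submodule.coe_zero]
      refine bc_induction W Ω (S := E) (p := fun y => aeval G (Q.map (algebraMap K Ω)) y = 0)
        (fun y hy => ?_) (map_zero _) (fun a b ha hb => by rw [map_add, ha, hb, add_zero])
        (fun a b hb => by rw [map_smul, hb, smul_zero]) y.2
      rw [aeval_one W hG1, hQE y hy, one_zero]
    have hfin' : Module.Finite Ω (bc W Ω E) := inferInstance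
    have htop := hss.iSup_eigenspace_eq_top
    intro y hy
    have hy' : (⟨y, hy⟩ : bc W Ω E) ∈ ⨆ μ, F.eigenspace μ := by rw [htop]; trivial
    have key : ∀ z : bc W Ω E, z ∈ ⨆ μ, F.eigenspace μ → (z : (W.toSPre Ω).H V) ∈
        Submodule.span Ω {y | y ∈ bc W Ω E ∧ ∃ a : Ω, γ.g V y = a • y} := by
      intro z hz
      induction hz using Submodule.iSup_induction' with
      | mem μ z hz =>
        refine Submodule.subset_span ⟨z.2, μ, ?_⟩
        have h1 := congrArg Subtype.val (Module.End.mem_eigenspace_iff.mp hz)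
        rw [hFc] at h1
        rw [hγ]
        exact h1
      | zero => exact Submodule.zero_mem _
      | add x y _ _ hx hy => exact Submodule.add_mem _ hx hy
    exact key _ hy'
  algebraic F n h1 h2 := algebraic_ext hγ hE F n h1 h2

end Piece

end Pool.Agent.Helper11.Fr
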