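import Mathlib
import Pool.Agent.Helper11.Fr.Ext

/-!
# The standard conjecture D and relations between the eigenvalues of a symmetry
-/

universe u v w t

open CategoryTheory TensorProduct Polynomial

namespace Pool.Agent.Helper11.Fr

open Pool.Agent.Helper10 hiding parityPart IsAlgAut
open SmProjVar SPre Iso
open Obs (one bc bc_induction top_induction one_mem_bc op_one one_mem_alg)

section Poly

variable {K : Type v} [Field K] [CharZero K]

/-- a Galois-invariant multiset is the multiset of the roots of a polynomial over `K` -/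
lemma exists_poly (M : Multiset (AlgebraicClosure K))
    (hM : ∀ σ : AlgebraicClosure K ≃ₐ[K] AlgebraicClosure K, M.map σ = M) :
    ∃ f : K[X], f.Monic ∧ f.aroots (AlgebraicClosure K) = M := by
  set F : Polynomial (AlgebraicClosure K) := (M.map fun α => X - C α).prod with hF
  have hroots : F.roots = M := Polynomial.roots_multiset_prod_X_sub_C M
  have hmonic : F.Monic := Polynomial.monic_multiset_prod_of_monic _ _ fun α _ =>
    Polynomial.monic_X_sub_C α
  have hfix : ∀ σ : AlgebraicClosure K ≃ₐ[K] AlgebraicClosure K,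
      F.map (σ : AlgebraicClosure K →+* AlgebraicClosure K) = F := by
    intro σ
    rw [hF, Polynomial.map_multiset_prod, Multiset.map_map]
    conv_rhs => rw [← hM σ, Multiset.map_map]
    congr 1
    refine Multiset.map_congr rfl fun α _ => ?_
    simp
  have hlift : F ∈ Polynomial.lifts (algebraMap K (AlgebraicClosure K)) := by
    rw [Polynomial.lifts_iff_coeff_lifts]
    intro n
    have h1 : F.coeff n ∈ (⊥ : IntermediateField K (AlgebraicClosure K)) := by
      rw [InfiniteGalois.mem_bot_iff_fixed]
      intro σ
      have h2 := congrArg (fun G => G.coeff n) (hfix σ)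
      rw [Polynomial.coeff_map] at h2
      exact h2
    rw [IntermediateField.mem_bot] at h1
    exact h1
  obtain ⟨f, hf, -, hfm⟩ := Polynomial.lifts_and_natDegree_eq_and_monic hlift hmonic
  exact ⟨f, hfm, by rw [Polynomial.aroots, hf, hroots]⟩

end Poly

variable {k : Type u} [Field k] {K : Type v} [Field K] [CharZero K]
  (W : WeilCohomology.{u, v, w} k K)

/-- symmetric relations over the algebraic closure -/
lemma symRel_ext {q : K} {γ : (W.toSPre (AlgebraicClosure K)).Sym} {r : ℕ}
    {V : Fin r → SmProjVar k} {t : ∀ c, W.H (V c) →ₗ[K] W.H (V c)}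
    {E : ∀ c, Submodule K (W.H (V c))}
    (hγ : ∀ c z, γ.g (V c) z = (t c).baseChange (AlgebraicClosure K) z)
    (hR : SymmetricRelations q t E) :
    Rl.SymRel γ (algebraMap K (AlgebraicClosure K) q) V
      (fun c => bc W (AlgebraicClosure K) (E c)) := by
  classical
  intro M hM hinv ⟨n, hn⟩ c β
  choose f hfm hf using fun c => exists_poly (M c) fun σ => hinv σ c
  have h0 := hR f hfm (fun c α hα => by
      rw [hf] at hα
      obtain ⟨z, hz, hz0, hzα⟩ := hM c α hα
      intro P hP
      let G : Module.End (AlgebraicClosure K) ((W.toSPre (AlgebraicClosure K)).H (V c)) := (t c).baseChange (AlgebraicClosure K)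
      have hG1 : ∀ y, G (one W (AlgebraicClosure K) y) = one W (AlgebraicClosure K) (t c y) := fun y => LinearMap.baseChange_tmul _ _ _
      have h1 : aeval G (P.map (algebraMap K (AlgebraicClosure K))) z = 0 := by
        refine bc_induction W (AlgebraicClosure K) (S := E c) (p := fun y => aeval G (P.map (algebraMap K (AlgebraicClosure K))) y = 0)
          (fun y hy => ?_) (map_zero _) (fun a b ha hb => by rw [map_add, ha, hb, add_zero])
          (fun a b hb => by rw [map_smul, hb, smul_zero]) hz
        rw [aeval_one W hG1, hP y hy, one_zero]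
      have h2 : aeval G (P.map (algebraMap K (AlgebraicClosure K))) z = (P.map (algebraMap K (AlgebraicClosure K))).eval α • z := by
        refine Module.End.aeval_apply_of_hasEigenvector (f := G) (μ := α) (x := z) ⟨?_, hz0⟩
        rw [Module.End.mem_eigenspace_iff]
        exact (hγ c z).symm.trans hzα
      rw [h1] at h2
      have h3 := (smul_eq_zero.mp h2.symm).resolve_right hz0
      rwa [Polynomial.eval_map, ← Polynomial.aeval_def] at h3) (by
      have h1 : algebraMap K (AlgebraicClosure K) (∏ c, (f c).eval 0) = ∏ c, ((M c).map (fun α => -α)).prod := by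
        rw [map_prod]
        refine Finset.prod_congr rfl fun c _ => ?_
        have h2 : (f c).map (algebraMap K (AlgebraicClosure K)) = ((M c).map fun α => X - C α).prod := by
          have h3 := (IsAlgClosed.splits ((f c).map (algebraMap K (AlgebraicClosure K)))).eq_prod_roots_of_monic
            ((hfm c).map _)
          rw [← Polynomial.aroots, hf] at h3
          exact h3
        rw [← Polynomial.eval₂_at_apply, map_zero, ← Polynomial.eval_map, h2,
          Polynomial.eval_multiset_prod, Multiset.map_map]
        congr 1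
        refine Multiset.map_congr rfl fun α _ => ?_
        simp
      have h2 : ∃ s : (AlgebraicClosure K), (s = 1 ∨ s = -1) ∧
          ∏ c, ((M c).map (fun α => -α)).prod = s * ∏ c, (M c).prod := by
        have h3 : ∀ c, ((M c).map (fun α => -α)).prod =
            (-1) ^ (Multiset.card (M c)) * (M c).prod := by
          intro c
          rw [← Multiset.prod_map_neg]
        rw [Finset.prod_congr rfl fun c _ => h3 c, Finset.prod_mul_distrib,
          Finset.prod_pow_eq_pow_sum]
        exact ⟨_, neg_one_pow_eq_or _ _, rfl⟩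
      obtain ⟨s, hs, h3⟩ := h2
      refine ⟨n, ?_⟩
      rw [h3, hn] at h1
      rcases hs with rfl | rfl
      · refine .inl ((algebraMap K (AlgebraicClosure K)).injective ?_)
        rw [h1, one_mul, map_zpow₀]
      · refine .inr ((algebraMap K (AlgebraicClosure K)).injective ?_)
        rw [h1, map_neg, map_zpow₀, neg_one_mul]) c β
  have hcnt : ∀ β, rootCount q (f c) β = Rl.cnt (algebraMap K (AlgebraicClosure K) q) (M c) β := by
    intro β
    unfold rootCount Rl.cnt
    rw [hf, Multiset.countP_eq_card_filter]
  rw [← hcnt, ← hcnt, h0]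

/-- words over `Ω` -/
lemma genE_ext (Ω : Type t) [Field Ω] [Algebra K Ω] {r : ℕ} {V : Fin r → SmProjVar k}
    {E : ∀ c, Submodule K (W.H (V c))} {Y : SmProjVar k}
    (hY : IsSpannedByWords W.toCohomologyData E Y) :
    Rl.GenE (P := W.toSPre Ω) V (fun c => bc W Ω (E c)) Y := by
  unfold Rl.GenE
  rw [eq_top_iff]
  intro z _
  refine top_induction W Ω (p := fun z => z ∈ Submodule.span Ω {y : (W.toSPre Ω).H Y |
    ∃ (Z X : SmProjVar k), ∃ w ∈ Rl.pwords V (fun c => bc W Ω (E c)) Z,
    ∃ (h : X.toOver ⟶ Z.toOver) (g : X.toOver ⟶ Y.toOver), ∃ c ∈ (W.toSPre Ω).alg X,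
      y = (W.toSPre Ω).pushF g ((W.toSPre Ω).pull h w * c)}) (fun y => ?_)
    (Submodule.zero_mem _) (fun _ _ => Submodule.add_mem _) (fun a _ => Submodule.smul_mem _ a) z
  have hy : y ∈ (⊤ : Submodule K (W.H Y)) := trivial
  rw [← hY] at hy
  induction hy using Submodule.span_induction with
  | mem y hy =>
    obtain ⟨Z, u, w, hw, ⟨c, hc, hu⟩, rfl⟩ := hy
    rw [← op_one W Ω hu]
    refine Submodule.subset_span ⟨Z, Z.prod Y, one W Ω w, ?_, fst Z Y, snd Z Y, one W Ω c,
      one_mem_alg W Ω hc, ?_⟩
    · clear hu hc
      unfold words at hw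
      unfold Rl.pwords
      induction hw using Submonoid.closure_induction with
      | mem x hx =>
        obtain ⟨c, f, e, he, rfl⟩ := hx
        exact Submonoid.subset_closure ⟨c, f, one W Ω e, one_mem_bc W Ω he,
          (Obs.pull_one W Ω f e).symm⟩
      | one => exact Submonoid.one_mem _
      | mul x y _ _ hx hy =>
        rw [Obs.one_mul]
        exact Submonoid.mul_mem _ hx hy
    · rw [op_apply]
  | zero =>
    rw [one_zero]
    exact Submodule.zero_mem _
  | add x y _ _ hx hy => rw [Obs.one_add]; exact Submodule.add_mem _ hx hy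
  | smul a x _ hx => rw [one_smul']; exact Submodule.smul_mem _ _ hx

/-- **The standard conjecture D and symmetric relations between eigenvalues** -/
theorem standardD {g : ∀ X : SmProjVar k, W.H X →ₗ[K] W.H X} {q : K}
    (hg : IsSymmetry W.toCohomologyData g q) {r : ℕ} {V : Fin r → SmProjVar k}
    {E : ∀ c, Submodule K (W.H (V c))}
    (hE : ∀ c, IsTatePiece W.toCohomologyData q (g (V c)) (E c))
    (hR : SymmetricRelations q (fun c => g (V c)) E) {Y : SmProjVar k}
    (hY : IsSpannedByWords W.toCohomologyData E Y) (n : ℕ) : W.StandardD (power Y n) := by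
  set Ω := AlgebraicClosure K with hΩ
  have hchar : CharZero Ω := charZero_of_injective_algebraMap (algebraMap K Ω).injective
  have hg' : W.IsSymmetry Ω (ext W Ω g) (algebraMap K Ω q) :=
    Obs.isSymmetry W Ω (isSymmetry_ext W Ω hg)
  have hq0 : algebraMap K Ω q ≠ 0 := hg'.ne_zero
  set U : Subgroup Ωˣ := Subgroup.zpowers (Units.mk0 _ hq0) with hU
  have hqU : algebraMap K Ω q ∈ grp Ω U := ⟨Units.mk0 _ hq0, Subgroup.mem_zpowers _, rfl⟩
  set T := W.symTest Ω hg' U hqU with hT
  have hγ : ∀ X z, T.γ.g X z = (g X).baseChange Ω z := fun X z => rfl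
  have hP : Rl.Pieces T.γ (algebraMap K Ω q) V (fun c => bc W Ω (E c)) :=
    { ne_zero := hq0
      tate := fun c => tateP_ext (fun z => hγ (V c) z) (hE c)
      trace := fun c => ⟨(V c).dim, fun z => by
        rw [zpow_natCast]
        exact hg'.trace (V c) z⟩ }
  have h1 : (W.toSPre Ω).D ((pt k).prod (Y.selfProd n)) := by
    refine Rl.d_of_symRel hP (fun a => ?_) (fun σ τ X x => W.sΩ_mul Ω σ τ X x)
      (fun σ X x => ?_) (fun σ => σ.commutes q) (fun l => ?_)
      (symRel_ext W (fun c z => hγ (V c) z) hR) (X := pt k) (fun m => W.d_of_standardD Ω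
        (standardD_selfProd_of_dim_eq_zero W (pt k) rfl m)) (W.symTest_good_pt Ω hg' U hqU)
      (genE_ext W Ω hY) n
    · constructor
      · rintro ⟨a, ha, rfl⟩
        obtain ⟨m, rfl⟩ := Subgroup.mem_zpowers_iff.mp ha
        exact ⟨m, by rw [Units.val_zpow_eq_zpow_val, Units.val_mk0]⟩
      · rintro ⟨m, rfl⟩
        exact ⟨Units.mk0 _ hq0 ^ m, Subgroup.zpow_mem_zpowers _ m, by
          rw [Units.val_zpow_eq_zpow_val, Units.val_mk0]⟩
    · rw [hγ, hγ]
      change (g X).baseChange Ω (W.sΩ σ X x) = W.sΩ σ X ((g X).baseChange Ω x)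
      induction x using TensorProduct.induction_on with
      | zero => simp only [map_zero]
      | tmul a y =>
        rw [WeilCohomology.sΩ_tmul, LinearMap.baseChange_tmul, LinearMap.baseChange_tmul,
          WeilCohomology.sΩ_tmul]
      | add x y hx hy => simp only [map_add, hx, hy]
    · exact WeilCohomology.finite_range_conj W Ω l
  have h2 := h1.retract (retract_pt_prod (Y.selfProd n))
  have h3 : power Y n = Y.selfProd n := by
    clear h1 h2
    induction n with
    | zero => rfl
    | succ n ih => rw [power, ih]; rfl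
  rw [h3]
  exact W.standardD_of_D Ω _ h2

end Pool.Agent.Helper11.Fr
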